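import Pool.Agent.H60.CM.Basic

/-!
# The interior of a surface with boundary is dense
-/

set_option autoImplicit false

open Set Function MeasureTheory Filter Topology
open scoped Manifold ContDiff Matrix

open Pool.Agent.H60.CM

namespace Pool.Agent.H16.CM

theorem pf_DNI : T_DNI := by
  intro D p
  rw [mem_closure_iff_nhds]
  intro U hU
  set y := extChartAt (𝓡∂ 2) p p with hy
  have hyt : y ∈ (extChartAt (𝓡∂ 2) p).target := mem_extChartAt_target p
  have hcont : ContinuousAt (extChartAt (𝓡∂ 2) p).symm y := continuousAt_extChartAt_symm p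
  have hsy : (extChartAt (𝓡∂ 2) p).symm y = p := extChartAt_to_inv p
  have hpre : (extChartAt (𝓡∂ 2) p).symm ⁻¹' U ∈ 𝓝 y := by
    apply hcont.preimage_mem_nhds
    rw [hsy]
    exact hU
  have hcl := extChartAt_target_subset_closure_interior hyt
  obtain ⟨z, hzU, hzi⟩ := mem_closure_iff_nhds.1 hcl _ hpre
  refine ⟨(extChartAt (𝓡∂ 2) p).symm z, hzU, ?_⟩
  have hzt : z ∈ (extChartAt (𝓡∂ 2) p).target := interior_subset hzi
  have hsrc : (extChartAt (𝓡∂ 2) p).symm z ∈ (extChartAt (𝓡∂ 2) p).source :=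
    (extChartAt (𝓡∂ 2) p).map_target hzt
  have hsrc' : (extChartAt (𝓡∂ 2) p).symm z ∈ (chartAt (EuclideanHalfSpace 2) p).source := by
    rw [extChartAt_source] at hsrc
    exact hsrc
  have hn : (∞ : WithTop ℕ∞) ≠ 0 := by simp
  have h := (ModelWithCorners.isInteriorPoint_iff_of_mem_atlas (I := 𝓡∂ 2) (n := ∞) hn
    (chart_mem_atlas (EuclideanHalfSpace 2) p) hsrc').2 (by
      have h1 : (chartAt (EuclideanHalfSpace 2) p).extend (𝓡∂ 2)
          ((extChartAt (𝓡∂ 2) p).symm z) = z := (extChartAt (𝓡∂ 2) p).right_inv hzt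
      rw [h1]
      exact hzi)
  exact h

end Pool.Agent.H16.CM
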